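import Mathlib
import Pool.Agent.N990.RU.Stm

/-!
# RND: the averages of independent couplings of finite mean over the lattices `H n` are bounded

Project RU (helper990), leaf RND, by helper648.
-/

set_option autoImplicit false

namespace Pool.Agent.N648.RU

open MeasureTheory ProbabilityTheory Filter Topology Finset
open Pool.Agent.N988.EA Pool.Agent.N990.RU

noncomputable section

/-- an edge of `H n` as an edge of the infinite lattice -/
def E (p : ℕ → Fin 2 × Bool) : (n : ℕ) → Edge 2 n → EdgeInf 2 p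
  | 0, _ => .inl ()
  | n + 1, e => if h : (e.1, e.2.1) = p n then E p n e.2.2
      else .inr ⟨n, ⟨(e.1, e.2.1), h⟩, e.2.2⟩

theorem rs_eq (p : ℕ → Fin 2 × Bool) (J : EdgeInf 2 p → ℝ × Ang) :
    ∀ (n : ℕ) (e : Edge 2 n), rs p J n e = J (E p n e)
  | 0, _ => rfl
  | n + 1, e => by
    unfold rs E
    split_ifs with h
    · exact rs_eq p J n _
    · rfl

theorem card_ne : ∀ a : Fin 2 × Bool, Fintype.card {q : Fin 2 × Bool // q ≠ a} = 3 := by
  decide

theorem card_new (p : ℕ → Fin 2 × Bool) (n : ℕ) (hc : Fintype.card (Edge 2 n) = 4 ^ n) :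
    Fintype.card ({q : Fin 2 × Bool // q ≠ p n} × Edge 2 n) = 3 * 4 ^ n := by
  rw [Fintype.card_prod, hc, card_ne]

theorem sub_lt {k : ℕ} (h : k ≠ 0) : k - 4 ^ Nat.log 4 k < 3 * 4 ^ Nat.log 4 k := by
  have h1 : k < 4 ^ (Nat.log 4 k + 1) := Nat.lt_pow_succ_log_self (by norm_num) k
  have h2 : 4 ^ Nat.log 4 k ≤ k := Nat.pow_log_le_self 4 h
  rw [pow_succ] at h1
  omega

section

variable {p : ℕ → Fin 2 × Bool}
  (φ : ∀ n : ℕ, Fin (3 * 4 ^ n) ≃ {q : Fin 2 × Bool // q ≠ p n} × Edge 2 n)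

/-- an enumeration of the edges of the infinite lattice; the first `4 ^ n` are those of `H n` -/
def G (k : ℕ) : EdgeInf 2 p :=
  if h : k = 0 then .inl () else .inr ⟨Nat.log 4 k, φ _ ⟨k - 4 ^ Nat.log 4 k, sub_lt h⟩⟩

theorem G_zero : G φ 0 = .inl () := by
  unfold G
  rw [dif_pos rfl]

theorem G_eq (k n r : ℕ) (h0 : k ≠ 0) (hn : Nat.log 4 k = n) (hr : k - 4 ^ n = r)
    (hr' : r < 3 * 4 ^ n) : G φ k = .inr ⟨n, φ n ⟨r, hr'⟩⟩ := by
  subst hn
  subst hr
  unfold G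
  rw [dif_neg h0]

theorem G_add (n r : ℕ) (hr : r < 3 * 4 ^ n) : G φ (4 ^ n + r) = .inr ⟨n, φ n ⟨r, hr⟩⟩ := by
  have h0 : 0 < 4 ^ n := by positivity
  refine G_eq φ _ n r (by omega) ?_ (by omega) hr
  rw [Nat.log_eq_iff (Or.inr ⟨by norm_num, by omega⟩)]
  refine ⟨by omega, ?_⟩
  rw [pow_succ]
  omega

theorem G_inj : Function.Injective (G φ) := by
  have key : ∀ (n n' r r' : ℕ) (hr : r < 3 * 4 ^ n) (hr' : r' < 3 * 4 ^ n'),
      (.inr ⟨n, φ n ⟨r, hr⟩⟩ : EdgeInf 2 p) = .inr ⟨n', φ n' ⟨r', hr'⟩⟩ → n = n' ∧ r = r' := by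
    intro n n' r r' hr hr' h
    have h1 := Sum.inr_injective h
    obtain ⟨h2, h3⟩ := Sigma.mk.inj_iff.1 h1
    subst h2
    have h4 := (φ n).injective (eq_of_heq h3)
    exact ⟨rfl, congrArg Fin.val h4⟩
  intro k k' h
  by_cases hk : k = 0
  · by_cases hk' : k' = 0
    · rw [hk, hk']
    · rw [hk, G_zero, G_eq φ k' _ _ hk' rfl rfl (sub_lt hk')] at h
      exact absurd h Sum.inl_ne_inr
  · by_cases hk' : k' = 0
    · rw [hk', G_zero, G_eq φ k _ _ hk rfl rfl (sub_lt hk)] at h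
      exact absurd h Sum.inr_ne_inl
    · rw [G_eq φ k _ _ hk rfl rfl (sub_lt hk), G_eq φ k' _ _ hk' rfl rfl (sub_lt hk')] at h
      obtain ⟨h1, h2⟩ := key _ _ _ _ _ _ h
      have h3 : 4 ^ Nat.log 4 k ≤ k := Nat.pow_log_le_self 4 hk
      have h4 : 4 ^ Nat.log 4 k' ≤ k' := Nat.pow_log_le_self 4 hk'
      rw [← h1] at h2 h4
      omega

theorem sum_G (F : EdgeInf 2 p → ℝ) :
    ∀ n : ℕ, ∑ k ∈ range (4 ^ n), F (G φ k) = ∑ e : Edge 2 n, F (E p n e)
  | 0 => by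
    have h1 : ∑ e : Edge 2 0, F (E p 0 e) = ∑ _e : Unit, F (.inl ()) := rfl
    rw [h1, pow_zero, sum_range_one, G_zero]
    simp
  | n + 1 => by
    have h1 : 4 ^ (n + 1) = 4 ^ n + 3 * 4 ^ n := by ring
    rw [h1, Finset.sum_range_add, sum_G F n]
    have h2 : ∑ r ∈ range (3 * 4 ^ n), F (G φ (4 ^ n + r)) =
        ∑ q : {q : Fin 2 × Bool // q ≠ p n}, ∑ e : Edge 2 n, F (.inr ⟨n, q, e⟩) := by
      rw [Finset.sum_range, ← Fintype.sum_prod_type'
        (f := fun (q : {q : Fin 2 × Bool // q ≠ p n}) (e : Edge 2 n) => F (.inr ⟨n, q, e⟩)),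
        ← Equiv.sum_comp (φ n)]
      refine Finset.sum_congr rfl fun r _ => ?_
      rw [G_add φ n r r.2]
    rw [h2]
    have h3 : ∑ e : Edge 2 (n + 1), F (E p (n + 1) e) =
        ∑ e : Fin 2 × Bool × Edge 2 n, F (E p (n + 1) e) := rfl
    have h4 : ∑ e : Fin 2 × Bool × Edge 2 n, F (E p (n + 1) e) =
        ∑ x : (Fin 2 × Bool) × Edge 2 n, F (E p (n + 1) (x.1.1, x.1.2, x.2)) :=
      (Equiv.sum_comp (Equiv.prodAssoc (Fin 2) Bool (Edge 2 n))
        (fun e : Fin 2 × Bool × Edge 2 n => F (E p (n + 1) e))).symm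
    rw [h3, h4, Fintype.sum_prod_type, Fintype.sum_eq_add_sum_subtype_ne _ (p n)]
    congr 1
    · refine Finset.sum_congr rfl fun e _ => ?_
      have : E p (n + 1) ((p n).1, (p n).2, e) = E p n e := by
        rw [E]
        exact dif_pos rfl
      exact congrArg F this.symm
    · refine Finset.sum_congr rfl fun q _ => Finset.sum_congr rfl fun e _ => ?_
      have : E p (n + 1) (q.1.1, q.1.2, e) = .inr ⟨n, q, e⟩ := by
        rw [E]
        exact dif_neg q.2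
      exact congrArg F this.symm

end

theorem t_rnd (h1 : Pool.Agent.N990.RU.S_GEO) : Pool.Agent.N990.RU.S_RND := by
  intro μ _ hint p
  have hcard : ∀ n, Fintype.card (Edge 2 n) = 4 ^ n := (h1 p).2.2.2.2.2.2.2.2.2
  obtain ⟨φ⟩ : Nonempty (∀ n : ℕ, Fin (3 * 4 ^ n) ≃ {q : Fin 2 × Bool // q ≠ p n} × Edge 2 n) :=
    ⟨fun n => (Fintype.equivFinOfCardEq (card_new p n (hcard n))).symm⟩
  have hm : Measurable fun x : ℝ × Ang => |x.1| := measurable_fst.abs
  have hmp : ∀ i : EdgeInf 2 p, MeasurePreserving (fun J : EdgeInf 2 p → ℝ × Ang => J i)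
      (Measure.infinitePi fun _ : EdgeInf 2 p => μ) μ := fun i =>
    measurePreserving_eval_infinitePi (fun _ : EdgeInf 2 p => μ) i
  have hmX : ∀ k : ℕ, Measurable fun J : EdgeInf 2 p → ℝ × Ang => |(J (G φ k)).1| := fun k =>
    hm.comp (measurable_pi_apply _)
  have hmap : ∀ k : ℕ, (Measure.infinitePi fun _ : EdgeInf 2 p => μ).map
      (fun J : EdgeInf 2 p → ℝ × Ang => |(J (G φ k)).1|) = μ.map fun x : ℝ × Ang => |x.1| := by
    intro k
    have h2 := Measure.map_map (μ := Measure.infinitePi fun _ : EdgeInf 2 p => μ) hm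
      (measurable_pi_apply (G φ k))
    rw [(hmp (G φ k)).map_eq] at h2
    exact h2.symm
  have hs := strong_law_ae_real (μ := Measure.infinitePi fun _ : EdgeInf 2 p => μ)
    (fun (k : ℕ) (J : EdgeInf 2 p → ℝ × Ang) => |(J (G φ k)).1|)
    ((hmp (G φ 0)).integrable_comp_of_integrable (g := fun x : ℝ × Ang => |x.1|) hint.abs)
    (by
      intro i j hij
      have h3 := iIndepFun_infinitePi (P := fun _ : EdgeInf 2 p => μ)
        (X := fun _ (x : ℝ × Ang) => |x.1|) (fun _ => hm)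
      exact h3.indepFun ((G_inj φ).ne hij))
    (fun k => ⟨(hmX k).aemeasurable, (hmX 0).aemeasurable, by rw [hmap k, hmap 0]⟩)
  filter_upwards [hs] with J hJ
  obtain ⟨C, hC⟩ := hJ.bddAbove_range
  refine ⟨C, fun n => ?_⟩
  have h4 := hC ⟨4 ^ n, rfl⟩
  have h5 := sum_G φ (fun e : EdgeInf 2 p => |(J e).1|) n
  have h6 : ∑ e : Edge 2 n, |(rs p J n e).1| = ∑ e : Edge 2 n, |(J (E p n e)).1| :=
    Finset.sum_congr rfl fun e _ => by rw [rs_eq]
  rw [h6, hcard, ← h5]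
  exact h4

end

end Pool.Agent.N648.RU
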